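import Pool.Agent.R942.AX.Lim
import Pool.Agent.R479.DA.Lim

/-!
# Borel-Cantelli lemmas for a sparse set of exceptional objects and arbitrary attached sets

`T` is a countable set of objects, `H` a height and `E` a set of exceptional objects of height at
least one such that there are at most `X ^ (κ + o(1))` of them of height at most `X`.
-/

set_option autoImplicit false

namespace Pool.Agent.R942.HX

open Filter Topology MeasureTheory
open scoped ENNReal NNReal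

/-- the objects of `E` have height at least one, and at most `X ^ (κ + o(1))` of them have a height
at most `X` -/
def Sparse {T : Type} (H : T → ℝ) (E : Set T) (κ : ℝ) : Prop :=
  (∀ t ∈ E, 1 ≤ H t) ∧ ∀ ε : ℝ, 0 < ε → ∃ K : ℝ, ∀ X : ℝ, 1 ≤ X →
    {t | t ∈ E ∧ H t ≤ X}.Finite ∧ ({t | t ∈ E ∧ H t ≤ X}.ncard : ℝ) ≤ K * X ^ (κ + ε)

variable {T : Type} {H : T → ℝ} {E : Set T} {κ : ℝ}

theorem Sparse.summable (hE : Sparse H E κ) (h0 : 0 ≤ κ) {δ : ℝ} (hδ : κ < δ) :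
    Summable fun t : E => H t.1 ^ (-δ) := by
  obtain ⟨K, hK⟩ := hE.2 ((δ - κ) / 2) (by linarith)
  refine Pool.Agent.R479.DA.summable_heights (ι := E) (fun t => H t.1) (fun t => hE.1 t.1 t.2)
    (s := κ + (δ - κ) / 2) (p := δ) (C := K) (by linarith) (by linarith) ?_
  intro X hX
  obtain ⟨hfin, hle⟩ := hK X hX
  have hinj : Set.InjOn (Subtype.val : E → T) {t | H t.1 ≤ X} := Subtype.val_injective.injOn
  have hmaps : Set.MapsTo (Subtype.val : E → T) {t | H t.1 ≤ X} {t | t ∈ E ∧ H t ≤ X} :=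
    fun t ht => ⟨t.2, ht⟩
  have hf : {t : E | H t.1 ≤ X}.Finite := hfin.of_injOn hmaps hinj
  exact ⟨hf, le_trans (by exact_mod_cast Set.ncard_le_ncard_of_injOn _ hmaps hinj hfin) hle⟩

/-- `E` is countable -/
theorem Sparse.countable (hE : Sparse H E κ) : E.Countable := by
  obtain ⟨K, hK⟩ := hE.2 1 one_pos
  have h : E ⊆ ⋃ n : ℕ, {t | t ∈ E ∧ H t ≤ (n : ℝ) + 1} := by
    intro t ht
    obtain ⟨n, hn⟩ := exists_nat_ge (H t)
    exact Set.mem_iUnion.2 ⟨n, ht, by linarith⟩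
  refine Set.Countable.mono h (Set.countable_iUnion fun n => ?_)
  exact (hK (n + 1) (by have : (0 : ℝ) ≤ n := Nat.cast_nonneg n; linarith)).1.countable

theorem Sparse.tsum_ne_top (hE : Sparse H E κ) (h0 : 0 ≤ κ) {δ C : ℝ} (hδ : κ < δ)
    (m : T → ℕ → ℝ≥0∞)
    (h : ∀ t ∈ E, ∑' n, m t n ≤ ENNReal.ofReal (C * H t ^ (-δ))) :
    ∑' p : E × ℕ, m p.1.1 p.2 ≠ ⊤ := by
  rw [ENNReal.tsum_prod (f := fun (t : E) n => m t.1 n)]
  have hp : ∀ t : E, 0 ≤ H t.1 := fun t => le_trans zero_le_one (hE.1 t.1 t.2)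
  have h2 : ∑' t : E, ∑' n, m t.1 n ≤ ∑' t : E, ENNReal.ofReal (|C| * H t.1 ^ (-δ)) := by
    refine ENNReal.tsum_le_tsum fun t => (h t.1 t.2).trans ?_
    apply ENNReal.ofReal_le_ofReal
    exact mul_le_mul_of_nonneg_right (le_abs_self C) (Real.rpow_nonneg (hp t) _)
  refine ne_top_of_le_ne_top ?_ h2
  rw [← ENNReal.ofReal_tsum_of_nonneg (fun t => ?_) ((hE.summable h0 hδ).mul_left |C|)]
  · exact ENNReal.ofReal_ne_top
  · exact mul_nonneg (abs_nonneg C) (Real.rpow_nonneg (hp t) _)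

theorem inf_iff {X : Type} (B : T → ℕ → Set X) (x : X)
    (h : {p : T × ℕ | p.1 ∈ E ∧ x ∈ B p.1 p.2}.Infinite) :
    {p : E × ℕ | x ∈ B p.1.1 p.2}.Infinite := by
  intro hfin
  apply h
  refine (hfin.image fun p : E × ℕ => ((p.1.1, p.2) : T × ℕ)).subset ?_
  rintro ⟨t, n⟩ ⟨h2, h4⟩
  exact ⟨(⟨t, h2⟩, n), h4, rfl⟩

/-- **dimension** -/
theorem Sparse.dim (hE : Sparse H E κ) (h0 : 0 ≤ κ) {X : Type} [EMetricSpace X]
    (B : T → ℕ → Set X) {s δ C : ℝ} (hs : 0 < s) (hδ : κ < δ)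
    (h : ∀ t ∈ E, ∑' n, Metric.ediam (B t n) ^ s ≤ ENNReal.ofReal (C * H t ^ (-δ))) :
    dimH {x : X | {p : T × ℕ | p.1 ∈ E ∧ x ∈ B p.1 p.2}.Infinite} ≤ ENNReal.ofReal s := by
  have : Countable E := hE.countable.to_subtype
  have h2 := Pool.Agent.R942.AX.dimH_limsup (ι := E × ℕ) (fun p => B p.1.1 p.2) hs
    (hE.tsum_ne_top h0 hδ (fun t n => Metric.ediam (B t n) ^ s) h)
  exact le_trans (dimH_mono fun x hx => inf_iff B x hx) h2

/-- **measure** -/
theorem Sparse.null (hE : Sparse H E κ) (h0 : 0 ≤ κ) {X : Type} (μ : OuterMeasure X)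
    (B : T → ℕ → Set X) {δ C : ℝ} (hδ : κ < δ)
    (h : ∀ t ∈ E, ∑' n, μ (B t n) ≤ ENNReal.ofReal (C * H t ^ (-δ))) :
    μ {x : X | {p : T × ℕ | p.1 ∈ E ∧ x ∈ B p.1 p.2}.Infinite} = 0 := by
  have : Countable E := hE.countable.to_subtype
  have h2 := measure_limsup_cofinite_eq_zero (μ := μ) (s := fun p : E × ℕ => B p.1.1 p.2)
    (hE.tsum_ne_top h0 hδ (fun t n => μ (B t n)) h)
  rw [cofinite.limsup_set_eq] at h2
  exact measure_mono_null (fun x hx => inf_iff B x hx) h2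

/-- **arbitrary maps to metric spaces** -/
theorem Sparse.dim_map (hE : Sparse H E κ) (h0 : 0 ≤ κ) {X : Type} [MetricSpace X] (φ : T → X)
    {τ : ℝ} (hτ : 0 < τ) :
    dimH {x : X | {t : T | t ∈ E ∧ dist (φ t) x ≤ H t ^ (-τ)}.Infinite} ≤
      ENNReal.ofReal (κ / τ) := by
  have hk : ∀ k : ℕ, dimH {x : X | {t : T | t ∈ E ∧ dist (φ t) x ≤ H t ^ (-τ)}.Infinite} ≤
      ENNReal.ofReal (κ / τ + 1 / ((k : ℝ) + 1)) := by
    intro k
    have hk0 : (0 : ℝ) < 1 / ((k : ℝ) + 1) := by positivity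
    set s : ℝ := κ / τ + 1 / ((k : ℝ) + 1) with hs
    have hs0 : 0 < s := by positivity
    have hsτ : κ < τ * s := by
      rw [hs, mul_add, mul_div_cancel₀ _ hτ.ne']
      linarith [mul_pos hτ hk0]
    refine le_trans (dimH_mono fun x hx => ?_) (hE.dim h0
      (fun t n => if n = 0 then {x : X | dist (φ t) x ≤ H t ^ (-τ)} else ∅) (s := s) (δ := τ * s)
      (C := 2 ^ s) hs0 hsτ fun t ht' => ?_)
    · simp only [Set.mem_ofPred_eq] at hx ⊢
      intro hfin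
      apply hx
      refine (hfin.image Prod.fst).subset ?_
      rintro t ⟨h3, h4⟩
      exact ⟨(t, 0), ⟨h3, by rw [if_pos rfl]; exact h4⟩, rfl⟩
    · rw [tsum_eq_single 0 (fun n hn => by
        rw [if_neg hn, Metric.ediam_empty, ENNReal.zero_rpow_of_pos hs0]), if_pos rfl]
      have h2 : 0 ≤ H t := le_trans zero_le_one (hE.1 t ht')
      have h3 : Metric.ediam {x : X | dist (φ t) x ≤ H t ^ (-τ)} ≤
          ENNReal.ofReal (2 * H t ^ (-τ)) := by
        apply Metric.ediam_le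
        intro x hx y hy
        rw [edist_dist]
        apply ENNReal.ofReal_le_ofReal
        have h4 := dist_triangle x (φ t) y
        rw [dist_comm x (φ t)] at h4
        simp only [Set.mem_ofPred_eq] at hx hy
        linarith
      calc Metric.ediam {x : X | dist (φ t) x ≤ H t ^ (-τ)} ^ s
          ≤ ENNReal.ofReal (2 * H t ^ (-τ)) ^ s := ENNReal.rpow_le_rpow h3 hs0.le
        _ = ENNReal.ofReal (2 ^ s * H t ^ (-(τ * s))) := by
            rw [ENNReal.ofReal_rpow_of_nonneg (by positivity) hs0.le,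
              Real.mul_rpow (by norm_num) (by positivity), ← Real.rpow_mul h2, neg_mul]
  have hlim : Tendsto (fun k : ℕ => ENNReal.ofReal (κ / τ + 1 / ((k : ℝ) + 1))) atTop
      (𝓝 (ENNReal.ofReal (κ / τ))) := by
    apply ENNReal.tendsto_ofReal
    have h2 := (tendsto_one_div_add_atTop_nhds_zero_nat (𝕜 := ℝ)).const_add (κ / τ)
    rwa [add_zero] at h2
  exact ge_of_tendsto' hlim hk

/-- **almost every real number** -/
theorem Sparse.ae_real (hE : Sparse H E κ) (h0 : 0 ≤ κ) (φ : T → ℝ) :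
    ∀ᵐ x : ℝ, ∀ τ : ℝ, κ < τ → {t : T | t ∈ E ∧ |φ t - x| ≤ H t ^ (-τ)}.Finite := by
  have h : ∀ k : ℕ, ∀ᵐ x : ℝ, ¬ {p : T × ℕ | p.1 ∈ E ∧
      x ∈ (if p.2 = 0 then Set.Icc (φ p.1 - H p.1 ^ (-(κ + 1 / ((k : ℝ) + 1))))
        (φ p.1 + H p.1 ^ (-(κ + 1 / ((k : ℝ) + 1)))) else ∅)}.Infinite := by
    intro k
    have hk0 : (0 : ℝ) < 1 / ((k : ℝ) + 1) := by positivity
    have h1 := hE.null h0 (volume : Measure ℝ).toOuterMeasure (fun t n => if n = 0 then
      Set.Icc (φ t - H t ^ (-(κ + 1 / ((k : ℝ) + 1))))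
        (φ t + H t ^ (-(κ + 1 / ((k : ℝ) + 1)))) else ∅)
        (δ := κ + 1 / ((k : ℝ) + 1)) (C := 2) (by linarith) ?_
    · rw [ae_iff]
      simp only [not_not]
      exact h1
    · intro t ht'
      rw [tsum_eq_single 0 (fun n hn => by rw [if_neg hn]; exact measure_empty), if_pos rfl]
      show volume (Set.Icc _ _) ≤ _
      rw [Real.volume_Icc]
      apply ENNReal.ofReal_le_ofReal
      linarith
  filter_upwards [ae_all_iff.2 h] with x hx τ hτ
  obtain ⟨k, hk⟩ := exists_nat_one_div_lt (sub_pos.2 hτ)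
  have h1 := hx k
  rw [Set.not_infinite] at h1
  refine (h1.image Prod.fst).subset ?_
  rintro t ⟨h2, h3⟩
  refine ⟨(t, 0), ⟨h2, ?_⟩, rfl⟩
  simp only [if_pos]
  have h5 : H t ^ (-τ) ≤ H t ^ (-(κ + 1 / ((k : ℝ) + 1))) :=
    Real.rpow_le_rpow_of_exponent_le (hE.1 t h2) (by linarith)
  rw [abs_le] at h3
  constructor <;> linarith [h3.1, h3.2]

end Pool.Agent.R942.HX
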