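import Pool.Agent.R942.HX.Core
import Pool.Agent.Results.MP_e734ed_nt.SparseExceptions

/-!
# The exceptions to Hall's inequality
-/

set_option autoImplicit false

namespace Pool.Agent.R942.HX

open Filter Topology MeasureTheory
open scoped ENNReal NNReal

/-- decreasing from `1 / 3` for `ε = 0` to `1 / 4` -/
noncomputable def g (ε : ℝ) : ℝ := (8 + 3 * ε) / (12 * (2 + ε))

/-- `(x, y)` is an integral point of the curve `y ^ 2 = x ^ 3 + d` for some `d ≠ 0`, and `x ≠ 0` -/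
def Point (e : ℤ × ℤ) : Prop := e.1 ≠ 0 ∧ e.2 ^ 2 ≠ e.1 ^ 3

/-- `log |x| < (2 + ε) log |d| + c`, where `d = y ^ 2 - x ^ 3` -/
def Ineq (ε c : ℝ) (e : ℤ × ℤ) : Prop :=
  Real.log |(e.1 : ℝ)| < (2 + ε) * Real.log |((e.2 ^ 2 - e.1 ^ 3 : ℤ) : ℝ)| + c

/-- the points which violate this inequality -/
def Exc (ε c : ℝ) : Set (ℤ × ℤ) := {e | Point e ∧ ¬ Ineq ε c e}

lemma one_le_x {e : ℤ × ℤ} (h : Point e) : 1 ≤ |(e.1 : ℝ)| := by
  exact_mod_cast Int.one_le_abs h.1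

lemma one_le_d {e : ℤ × ℤ} (h : Point e) : 1 ≤ |((e.2 ^ 2 - e.1 ^ 3 : ℤ) : ℝ)| := by
  exact_mod_cast Int.one_le_abs (sub_ne_zero.2 h.2)

lemma log_d_nonneg {e : ℤ × ℤ} (h : Point e) :
    0 ≤ Real.log |((e.2 ^ 2 - e.1 ^ 3 : ℤ) : ℝ)| := Real.log_nonneg (one_le_d h)

lemma Ineq.mono {ε ε' c c' : ℝ} (hε : ε ≤ ε') (hc : c ≤ c') {e : ℤ × ℤ} (hP : Point e)
    (h : Ineq ε c e) : Ineq ε' c' e := by
  unfold Ineq at *
  have := log_d_nonneg hP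
  nlinarith

lemma g_zero : g 0 = 1 / 3 := by
  unfold g
  norm_num

lemma g_pos {ε : ℝ} (hε : 0 ≤ ε) : 0 < g ε := by
  unfold g
  positivity

lemma g_eq {ε : ℝ} (hε : 0 ≤ ε) : 1 / 3 - (1 / 2 - 1 / (2 + ε)) / 6 = g ε := by
  have h2 : 0 < 2 + ε := by linarith
  unfold g
  field_simp
  ring

lemma viol_of_exc {ε c : ℝ} (hε : 0 ≤ ε) {e : ℤ × ℤ} (h : e ∈ Exc ε c) :
    |(e.2 : ℝ) ^ 2 - (e.1 : ℝ) ^ 3| ≤
      Real.exp (-(c / (2 + ε))) * |(e.1 : ℝ)| ^ (1 / 2 - (1 / 2 - 1 / (2 + ε))) := by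
  obtain ⟨hP, h⟩ := h
  have h2 : 0 < 2 + ε := by linarith
  have hx : 0 < |(e.1 : ℝ)| := lt_of_lt_of_le one_pos (one_le_x hP)
  have hd : 0 < |(e.2 : ℝ) ^ 2 - (e.1 : ℝ) ^ 3| := by
    have := one_le_d hP
    push_cast at this
    linarith
  unfold Ineq at h
  push_cast at h
  rw [not_lt] at h
  have e1 : (1 : ℝ) / 2 - (1 / 2 - 1 / (2 + ε)) = 1 / (2 + ε) := by ring
  rw [e1, ← Real.log_le_log_iff hd (by positivity), Real.log_mul (Real.exp_pos _).ne'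
    (Real.rpow_pos_of_pos hx _).ne', Real.log_exp, Real.log_rpow hx]
  have h3 : -(c / (2 + ε)) + 1 / (2 + ε) * Real.log |(e.1 : ℝ)| =
      (Real.log |(e.1 : ℝ)| - c) / (2 + ε) := by
    field_simp
    ring
  rw [h3, le_div_iff₀ h2]
  linarith

theorem sparse {ε : ℝ} (hε : 0 ≤ ε) (c : ℝ) :
    Sparse (fun e : ℤ × ℤ => |(e.1 : ℝ)|) (Exc ε c) (g ε) := by
  refine ⟨fun e he => one_le_x he.1, fun η hη => ?_⟩
  obtain ⟨K, hK⟩ := Pool.Agent.Results.MP_e734ed_nt.SparseExceptions.result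
    (Real.exp (-(c / (2 + ε)))) η hη
  refine ⟨K, fun X hX => ?_⟩
  have h2 : 0 < 2 + ε := by linarith
  have h3 : (0 : ℝ) < 1 / (2 + ε) := by positivity
  have h4 : 1 / (2 + ε) ≤ 1 / 2 := one_div_le_one_div_of_le (by norm_num) (by linarith)
  obtain ⟨hf, hc⟩ := hK (1 / 2 - 1 / (2 + ε)) (by linarith) (by linarith) X hX
  have hsub : {e : ℤ × ℤ | e ∈ Exc ε c ∧ |(e.1 : ℝ)| ≤ X} ⊆
      {e : ℤ × ℤ | |(e.1 : ℝ)| ≤ X ∧ e.2 ^ 2 ≠ e.1 ^ 3 ∧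
        |(e.2 : ℝ) ^ 2 - (e.1 : ℝ) ^ 3| ≤ Real.exp (-(c / (2 + ε))) *
          |(e.1 : ℝ)| ^ (1 / 2 - (1 / 2 - 1 / (2 + ε)))} := by
    rintro e ⟨h5, h6⟩
    exact ⟨h6, h5.1.2, viol_of_exc hε h5⟩
  refine ⟨hf.subset hsub, ?_⟩
  rw [g_eq hε] at hc
  exact le_trans (by exact_mod_cast Set.ncard_le_ncard hsub hf) hc

/-- if only finitely many of the points in a set violate the inequality, then all of them satisfy
it with a larger constant -/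
theorem exists_const {ε c : ℝ} (hε : 0 ≤ ε) {A : Set (ℤ × ℤ)}
    (h : {e | e ∈ Exc ε c ∧ e ∈ A}.Finite) :
    ∃ c' : ℝ, ∀ d x y : ℤ, d ≠ 0 → x ≠ 0 → y ^ 2 = x ^ 3 + d → (x, y) ∈ A →
      Real.log |(x : ℝ)| < (2 + ε) * Real.log |(d : ℝ)| + c' := by
  obtain ⟨B, hB⟩ := (h.image fun e => Real.log |(e.1 : ℝ)|).bddAbove
  refine ⟨max c (B + 1), fun d x y hd hx hxy hA => ?_⟩
  have hd' : y ^ 2 - x ^ 3 = d := by rw [hxy]; ring
  have hP : Point (x, y) := ⟨hx, fun h1 => hd (by rw [← hd']; simp only at h1; rw [h1]; ring)⟩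
  by_cases hv : Ineq ε c (x, y)
  · have h1 := hv.mono le_rfl (le_max_left c (B + 1)) hP
    unfold Ineq at h1
    simp only at h1
    rwa [hd'] at h1
  · have h1 := hB ⟨(x, y), ⟨⟨hP, hv⟩, hA⟩, rfl⟩
    simp only at h1
    have h2 := log_d_nonneg hP
    simp only at h2
    rw [hd'] at h2
    have h3 := le_max_right c (B + 1)
    nlinarith

end Pool.Agent.R942.HX
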