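import Pool.Agent.R942.HX.Core

/-!
# Random points, and digits of almost every real number
-/

set_option autoImplicit false

namespace Pool.Agent.R942.HX

open Filter Topology MeasureTheory
open scoped ENNReal NNReal

variable {T : Type} {H : T → ℝ} {E : Set T} {κ : ℝ}

/-- **random points** `X i`, not necessarily independent -/
theorem Sparse.random (hE : Sparse H E κ) (h0 : 0 ≤ κ) {Y Ω ι : Type} [PseudoMetricSpace Y]
    [MeasurableSpace Ω] (P : Measure Ω) (X : ι → Ω → Y) (φ : ι → T → Y) (F : T → Finset ι)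
    {A K s u v : ℝ}
    (hX : ∀ i y r, 0 < r → P {ω | dist (X i ω) y ≤ r} ≤ ENNReal.ofReal (A * r ^ s))
    (hF : ∀ t ∈ E, ((F t).card : ℝ) ≤ K * H t ^ u) (hv : κ < s * v - u) :
    ∀ᵐ ω ∂P, {t | t ∈ E ∧ ∃ i ∈ F t, dist (X i ω) (φ i t) ≤ H t ^ (-v)}.Finite := by
  have h1 := hE.null h0 P.toOuterMeasure
    (fun t n => if n = 0 then ⋃ i ∈ F t, {ω | dist (X i ω) (φ i t) ≤ H t ^ (-v)} else ∅)
    (δ := s * v - u) (C := |K| * |A|) hv ?_
  · have h2 : ∀ᵐ ω ∂P, ¬ {p : T × ℕ | p.1 ∈ E ∧ ω ∈ (if p.2 = 0 then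
        ⋃ i ∈ F p.1, {ω | dist (X i ω) (φ i p.1) ≤ H p.1 ^ (-v)} else ∅)}.Infinite := by
      rw [ae_iff]
      simp only [not_not]
      exact h1
    filter_upwards [h2] with ω hω
    rw [Set.not_infinite] at hω
    refine (hω.image Prod.fst).subset ?_
    rintro t ⟨h3, i, h4, h5⟩
    refine ⟨(t, 0), ⟨h3, ?_⟩, rfl⟩
    simp only [if_pos]
    rw [Set.mem_iUnion₂]
    exact ⟨i, h4, h5⟩
  · intro t ht
    have hH : 0 < H t := lt_of_lt_of_le one_pos (hE.1 t ht)
    rw [tsum_eq_single 0 (fun n hn => by rw [if_neg hn]; exact measure_empty), if_pos rfl]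
    show P (⋃ i ∈ F t, {ω | dist (X i ω) (φ i t) ≤ H t ^ (-v)}) ≤ _
    refine (measure_biUnion_finset_le _ _).trans ?_
    have h3 : ∀ i ∈ F t, P {ω | dist (X i ω) (φ i t) ≤ H t ^ (-v)} ≤
        ENNReal.ofReal (|A| * H t ^ (-(s * v))) := by
      intro i _
      refine (hX i (φ i t) (H t ^ (-v)) (Real.rpow_pos_of_pos hH _)).trans ?_
      apply ENNReal.ofReal_le_ofReal
      rw [← Real.rpow_mul hH.le, show -v * s = -(s * v) by ring]
      exact mul_le_mul_of_nonneg_right (le_abs_self A) (Real.rpow_nonneg hH.le _)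
    refine (Finset.sum_le_sum h3).trans ?_
    rw [Finset.sum_const, nsmul_eq_mul, ← ENNReal.ofReal_natCast,
      ← ENNReal.ofReal_mul (Nat.cast_nonneg _)]
    apply ENNReal.ofReal_le_ofReal
    have h4 : ((F t).card : ℝ) ≤ |K| * H t ^ u :=
      (hF t ht).trans (mul_le_mul_of_nonneg_right (le_abs_self K) (Real.rpow_nonneg hH.le _))
    calc ((F t).card : ℝ) * (|A| * H t ^ (-(s * v)))
        ≤ (|K| * H t ^ u) * (|A| * H t ^ (-(s * v))) :=
          mul_le_mul_of_nonneg_right h4 (by positivity)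
      _ = |K| * |A| * (H t ^ u * H t ^ (-(s * v))) := by ring
      _ = |K| * |A| * H t ^ (-(s * v - u)) := by
          rw [← Real.rpow_add hH]
          congr 2
          ring

/-- the measure of the real numbers in an interval of length one with a given fractional part of a
multiple -/
lemma circle_ball (q : ℤ) (hq : q ≠ 0) (k : ℝ) (y : UnitAddCircle) (r : ℝ) :
    (volume.restrict (Set.Ioc k (k + 1)))
      {α : ℝ | dist ((((q : ℝ) * α : ℝ)) : UnitAddCircle) y ≤ r} ≤ ENNReal.ofReal (2 * r) := by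
  have h1 : MeasurePreserving (fun a : ℝ => q • ((a : ℝ) : UnitAddCircle))
      (volume.restrict (Set.Ioc k (k + 1))) volume :=
    (Measure.measurePreserving_zsmul (volume : Measure UnitAddCircle) hq).comp
      (AddCircle.measurePreserving_mk 1 k)
  have h2 : {α : ℝ | dist ((((q : ℝ) * α : ℝ)) : UnitAddCircle) y ≤ r} =
      (fun a : ℝ => q • ((a : ℝ) : UnitAddCircle)) ⁻¹' Metric.closedBall y r := by
    ext α
    simp only [Set.mem_ofPred_eq, Set.mem_preimage, Metric.mem_closedBall]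
    rw [← AddCircle.coe_zsmul, zsmul_eq_mul]
  rw [h2, h1.measure_preimage measurableSet_closedBall.nullMeasurableSet,
    AddCircle.volume_closedBall]
  exact ENNReal.ofReal_le_ofReal (min_le_right _ _)

lemma dist_circle_le {a b r : ℝ} (h : ∃ j : ℤ, |a - b - j| ≤ r) :
    dist ((b : ℝ) : UnitAddCircle) ((a : ℝ) : UnitAddCircle) ≤ r := by
  obtain ⟨j, hj⟩ := h
  rw [dist_comm, dist_eq_norm, ← AddCircle.coe_sub, UnitAddCircle.norm_eq]
  exact (round_le (a - b) j).trans hj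

/-- **multiples of almost every real number** -/
theorem Sparse.multiples (hE : Sparse H E κ) (h0 : 0 ≤ κ) {ι : Type} (q : ι → ℤ)
    (hq : ∀ i, q i ≠ 0) (φ : ι → T → ℝ) (F : T → Finset ι) {K u v : ℝ}
    (hF : ∀ t ∈ E, ((F t).card : ℝ) ≤ K * H t ^ u) (hv : κ < v - u) :
    ∀ᵐ α : ℝ, {t | t ∈ E ∧ ∃ i ∈ F t, ∃ j : ℤ, |φ i t - q i * α - j| ≤ H t ^ (-v)}.Finite := by
  have h1 : ∀ k : ℤ, ∀ᵐ α : ℝ, α ∈ Set.Ioc (k : ℝ) (k + 1) →
      {t | t ∈ E ∧ ∃ i ∈ F t, ∃ j : ℤ, |φ i t - q i * α - j| ≤ H t ^ (-v)}.Finite := by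
    intro k
    rw [← ae_restrict_iff' measurableSet_Ioc]
    have h2 := hE.random h0 (Y := UnitAddCircle) (volume.restrict (Set.Ioc (k : ℝ) (k + 1)))
      (fun i α => ((((q i : ℝ) * α : ℝ)) : UnitAddCircle))
      (fun i t => ((φ i t : ℝ) : UnitAddCircle)) F (A := 2) (K := K) (s := 1) (u := u) (v := v)
      (fun i y r _ => by
        rw [Real.rpow_one]
        exact circle_ball (q i) (hq i) k y r) hF (by linarith)
    filter_upwards [h2] with α hα
    refine hα.subset ?_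
    rintro t ⟨h3, i, h4, h5⟩
    exact ⟨h3, i, h4, dist_circle_le h5⟩
  filter_upwards [ae_all_iff.2 h1] with α hα
  have h2 : α ∈ Set.Ioc ((⌈α⌉ - 1 : ℤ) : ℝ) ((⌈α⌉ - 1 : ℤ) + 1) := by
    push_cast
    constructor
    · linarith [Int.ceil_lt_add_one α]
    · linarith [Int.le_ceil α]
  exact hα _ h2

end Pool.Agent.R942.HX
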