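import Pool.Agent.R942.HX.Rand

/-!
# Common strings of digits of numbers attached to exceptional objects and of almost every number
-/

set_option autoImplicit false

namespace Pool.Agent.R942.HX

open Filter Topology MeasureTheory
open scoped ENNReal NNReal

variable {T : Type} {H : T → ℝ} {E : Set T} {κ : ℝ}

/-- the fractional parts of `x / b ^ i` and of `b ^ m α` differ by at most `r` modulo one, where
`b ^ i ≤ b Y` and `m ≤ Z`: a string of about `- log r / log b` consecutive digits of `x` in base `b` is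
a string of consecutive digits of `α` -/
def CommonString (b : ℕ) (α Y Z r x : ℝ) : Prop :=
  ∃ i m : ℕ, ∃ j : ℤ, (b : ℝ) ^ i ≤ b * Y ∧ (m : ℝ) ≤ Z ∧ |x / (b : ℝ) ^ i - (b : ℝ) ^ m * α - j| ≤ r

theorem Sparse.strings_base (hE : Sparse H E κ) (h0 : 0 ≤ κ) (N : T → ℝ) {w : ℝ} (hw : 0 ≤ w) (b : ℕ)
    (hb : 2 ≤ b) {u v : ℝ} (hu : 0 ≤ u) (hv : u + κ < v) :
    ∀ᵐ α : ℝ, {t | t ∈ E ∧ CommonString b α (H t ^ w) (H t ^ u) (H t ^ (-v)) (N t)}.Finite := by
  have hb1 : (1 : ℝ) < b := by exact_mod_cast hb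
  have hlogb : 0 < Real.log b := Real.log_pos hb1
  set η : ℝ := (v - u - κ) / 2 with hη
  have hη0 : 0 < η := by rw [hη]; linarith
  have hcard : ∀ t ∈ E,
      (((Finset.range (⌊1 + w * Real.log (H t) / Real.log b⌋₊ + 1) ×ˢ
        Finset.range (⌊H t ^ u⌋₊ + 1)).card : ℕ) : ℝ) ≤
        ((2 + w / (η * Real.log b)) * 2) * H t ^ (u + η) := by
    intro t ht
    have hx : 1 ≤ H t := hE.1 t ht
    have hx0 : 0 < H t := by linarith
    have hL : 0 ≤ w * Real.log (H t) / Real.log b :=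
      div_nonneg (mul_nonneg hw (Real.log_nonneg hx)) hlogb.le
    have hxu : 1 ≤ H t ^ u := Real.one_le_rpow hx hu
    have hxη : 1 ≤ H t ^ η := Real.one_le_rpow hx hη0.le
    rw [Finset.card_product, Finset.card_range, Finset.card_range]
    push_cast
    have h1 : (⌊1 + w * Real.log (H t) / Real.log b⌋₊ : ℝ) + 1 ≤
        (2 + w / (η * Real.log b)) * H t ^ η := by
      have h2 := Nat.floor_le (show 0 ≤ 1 + w * Real.log (H t) / Real.log b by linarith)
      have h3 := Real.log_le_rpow_div hx0.le hη0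
      have h4 : w * Real.log (H t) / Real.log b ≤ w / (η * Real.log b) * H t ^ η := by
        rw [div_le_iff₀ hlogb]
        calc w * Real.log (H t) ≤ w * (H t ^ η / η) := mul_le_mul_of_nonneg_left h3 hw
          _ = w / (η * Real.log b) * H t ^ η * Real.log b := by
            field_simp
      nlinarith
    have h5 : (⌊H t ^ u⌋₊ : ℝ) + 1 ≤ 2 * H t ^ u := by
      have := Nat.floor_le (show 0 ≤ H t ^ u by linarith)
      linarith
    calc ((⌊1 + w * Real.log (H t) / Real.log b⌋₊ : ℝ) + 1) * ((⌊H t ^ u⌋₊ : ℝ) + 1)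
        ≤ ((2 + w / (η * Real.log b)) * H t ^ η) * (2 * H t ^ u) :=
          mul_le_mul h1 h5 (by positivity) (by positivity)
      _ = ((2 + w / (η * Real.log b)) * 2) * (H t ^ u * H t ^ η) := by ring
      _ = ((2 + w / (η * Real.log b)) * 2) * H t ^ (u + η) := by
          rw [← Real.rpow_add hx0]
  have h1 := hE.multiples h0 (ι := ℕ × ℕ) (fun p => (b : ℤ) ^ p.2)
    (fun p => pow_ne_zero _ (by exact_mod_cast (by omega : b ≠ 0)))
    (fun p t => N t / (b : ℝ) ^ p.1)
    (fun t => Finset.range (⌊1 + w * Real.log (H t) / Real.log b⌋₊ + 1) ×ˢ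
      Finset.range (⌊H t ^ u⌋₊ + 1)) (v := v) hcard (by rw [hη]; linarith)
  filter_upwards [h1] with α hα
  refine hα.subset ?_
  rintro t ⟨ht, i, m, j, hi, hm, hj⟩
  have hx : 1 ≤ H t := hE.1 t ht
  have hx0 : 0 < H t := by linarith
  refine ⟨ht, (i, m), ?_, j, ?_⟩
  · rw [Finset.mem_product, Finset.mem_range, Finset.mem_range]
    constructor
    · refine Nat.lt_succ_of_le (Nat.le_floor ?_)
      have h2 := Real.log_le_log (by positivity) hi
      rw [Real.log_pow, Real.log_mul (by positivity) (Real.rpow_pos_of_pos hx0 _).ne',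
        Real.log_rpow hx0] at h2
      simp only
      have h3 : (i : ℝ) ≤ (Real.log b + w * Real.log (H t)) / Real.log b := by
        rw [le_div_iff₀ hlogb]
        exact h2
      rwa [add_div, div_self hlogb.ne'] at h3
    · exact Nat.lt_succ_of_le (Nat.le_floor hm)
  · simp only
    push_cast
    exact hj

/-- **common strings of digits**, in all bases -/
theorem Sparse.strings (hE : Sparse H E κ) (h0 : 0 ≤ κ) (N : T → ℝ) {w : ℝ} (hw : 0 ≤ w) :
    ∀ᵐ α : ℝ, ∀ b : ℕ, 2 ≤ b → ∀ u v : ℝ, 0 ≤ u → u + κ < v →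
      {t | t ∈ E ∧ CommonString b α (H t ^ w) (H t ^ u) (H t ^ (-v)) (N t)}.Finite := by
  have key : ∀ᵐ α : ℝ, ∀ (b : ℕ) (q r : ℚ), 2 ≤ b → (0 : ℝ) ≤ q → (q : ℝ) + κ < r →
      {t | t ∈ E ∧ CommonString b α (H t ^ w) (H t ^ (q : ℝ)) (H t ^ (-(r : ℝ))) (N t)}.Finite := by
    rw [ae_all_iff]
    intro b
    rw [ae_all_iff]
    intro q
    rw [ae_all_iff]
    intro r
    by_cases h : 2 ≤ b ∧ (0 : ℝ) ≤ q ∧ (q : ℝ) + κ < r
    · filter_upwards [hE.strings_base h0 N hw b h.1 h.2.1 h.2.2] with α hα _ _ _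
      exact hα
    · filter_upwards with α h1 h2 h3
      exact absurd ⟨h1, h2, h3⟩ h
  filter_upwards [key] with α hα b hb u v hu hv
  obtain ⟨q, hq1, hq2⟩ := exists_rat_btwn (show u < v - κ by linarith)
  obtain ⟨r, hr1, hr2⟩ := exists_rat_btwn (show (q : ℝ) + κ < v by linarith)
  refine (hα b q r hb (hu.trans hq1.le) hr1).subset ?_
  rintro t ⟨ht, i, m, j, hi, hm, hj⟩
  have hx : 1 ≤ H t := hE.1 t ht
  exact ⟨ht, i, m, j, hi, hm.trans (Real.rpow_le_rpow_of_exponent_le hx hq1.le),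
    hj.trans (Real.rpow_le_rpow_of_exponent_le hx (by linarith))⟩

end Pool.Agent.R942.HX
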