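import Pool.Agent.R942.HX.Strings

/-!
# Several common strings of digits with several numbers
-/

set_option autoImplicit false

namespace Pool.Agent.R942.HX

open Filter Topology MeasureTheory
open scoped ENNReal NNReal

variable {T : Type} {H : T → ℝ} {E : Set T} {κ : ℝ}

/-- the measure of the points of a box whose multiples are near a given point of the torus -/
lemma torus_ball {r : ℕ} (q : Fin r → ℤ) (hq : ∀ k, q k ≠ 0) (c : Fin r → ℝ)
    (y : Fin r → UnitAddCircle) (ρ : ℝ) (hρ : 0 < ρ) :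
    ((volume : Measure (Fin r → ℝ)).restrict (Set.pi Set.univ fun k => Set.Ioc (c k) (c k + 1)))
      {α : Fin r → ℝ | dist (fun k => (((q k : ℝ) * α k : ℝ) : UnitAddCircle)) y ≤ ρ} ≤
        ENNReal.ofReal (2 ^ r * ρ ^ (r : ℝ)) := by
  have h1 : {α : Fin r → ℝ | dist (fun k => (((q k : ℝ) * α k : ℝ) : UnitAddCircle)) y ≤ ρ} =
      Set.pi Set.univ fun k => {a : ℝ | dist (((q k : ℝ) * a : ℝ) : UnitAddCircle) (y k) ≤ ρ} := by
    ext α
    simp only [Set.mem_ofPred_eq, Set.mem_pi, Set.mem_univ, true_imp_iff]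
    rw [dist_pi_le_iff hρ.le]
  rw [h1, volume_pi, Measure.restrict_pi_pi, Measure.pi_pi]
  refine (Finset.prod_le_prod' fun k _ => circle_ball (q k) (hq k) (c k) (y k) ρ).trans ?_
  rw [Finset.prod_const, Finset.card_univ, Fintype.card_fin,
    ← ENNReal.ofReal_pow (by positivity), mul_pow, Real.rpow_natCast]

/-- **multiples of the coordinates of almost every point** -/
theorem Sparse.torus (hE : Sparse H E κ) (h0 : 0 ≤ κ) {ι : Type} {r : ℕ} (q : ι → Fin r → ℤ)
    (hq : ∀ i k, q i k ≠ 0) (φ : ι → T → Fin r → ℝ) (F : T → Finset ι) {K u v : ℝ}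
    (hF : ∀ t ∈ E, ((F t).card : ℝ) ≤ K * H t ^ u) (hv : κ < r * v - u) :
    ∀ᵐ α : Fin r → ℝ, {t | t ∈ E ∧ ∃ i ∈ F t, ∀ k, ∃ j : ℤ,
      |φ i t k - q i k * α k - j| ≤ H t ^ (-v)}.Finite := by
  have h1 : ∀ c : Fin r → ℤ, ∀ᵐ α : Fin r → ℝ,
      α ∈ Set.pi Set.univ (fun k => Set.Ioc (c k : ℝ) (c k + 1)) →
      {t | t ∈ E ∧ ∃ i ∈ F t, ∀ k, ∃ j : ℤ, |φ i t k - q i k * α k - j| ≤ H t ^ (-v)}.Finite := by
    intro c
    rw [← ae_restrict_iff' (MeasurableSet.univ_pi fun k => measurableSet_Ioc)]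
    have h2 := hE.random h0 (Y := Fin r → UnitAddCircle)
      ((volume : Measure (Fin r → ℝ)).restrict
        (Set.pi Set.univ fun k => Set.Ioc (c k : ℝ) (c k + 1)))
      (fun i α k => ((((q i k : ℝ) * α k : ℝ)) : UnitAddCircle))
      (fun i t k => ((φ i t k : ℝ) : UnitAddCircle)) F (A := 2 ^ r) (K := K) (s := r) (u := u)
      (v := v) (fun i y ρ hρ => torus_ball (q i) (hq i) (fun k => (c k : ℝ)) y ρ hρ) hF hv
    filter_upwards [h2] with α hα
    refine hα.subset ?_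
    rintro t ⟨h3, i, h4, h5⟩
    refine ⟨h3, i, h4, ?_⟩
    have hH : 0 < H t := lt_of_lt_of_le one_pos (hE.1 t h3)
    rw [dist_pi_le_iff (Real.rpow_nonneg hH.le _)]
    exact fun k => dist_circle_le (h5 k)
  filter_upwards [ae_all_iff.2 h1] with α hα
  have h2 : α ∈ Set.pi Set.univ
      (fun k => Set.Ioc ((⌈α k⌉ - 1 : ℤ) : ℝ) ((⌈α k⌉ - 1 : ℤ) + 1)) := by
    intro k _
    push_cast
    constructor
    · linarith [Int.ceil_lt_add_one (α k)]
    · linarith [Int.le_ceil (α k)]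
  exact hα (fun k => ⌈α k⌉ - 1) h2

theorem Sparse.several_base (hE : Sparse H E κ) (h0 : 0 ≤ κ) {r : ℕ} (hr : 1 ≤ r)
    (N : Fin r → T → ℝ) {w : ℝ} (hw : 0 ≤ w) (b : ℕ)
    (hb : 2 ≤ b) {u v : ℝ} (hu : 0 ≤ u) (hv : u + κ / r < v) :
    ∀ᵐ α : Fin r → ℝ, {t | t ∈ E ∧
      ∀ k, CommonString b (α k) (H t ^ w) (H t ^ u) (H t ^ (-v)) (N k t)}.Finite := by
  have hb1 : (1 : ℝ) < b := by exact_mod_cast hb
  have hlogb : 0 < Real.log b := Real.log_pos hb1
  have hr0 : (0 : ℝ) < r := by exact_mod_cast (by omega : 0 < r)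
  set η : ℝ := (v - u - κ / r) / 2 with hη
  have hη0 : 0 < η := by rw [hη]; linarith
  set M : ℝ := 2 + w / (η * Real.log b) with hM
  have hM0 : 0 ≤ M := by rw [hM]; positivity
  have hcard : ∀ t ∈ E,
      (((Fintype.piFinset (fun _ : Fin r => Finset.range (⌊1 + w * Real.log (H t) / Real.log b⌋₊ + 1)) ×ˢ
        Fintype.piFinset (fun _ : Fin r => Finset.range (⌊H t ^ u⌋₊ + 1))).card : ℕ) : ℝ) ≤
        ((M * 2) ^ r) * H t ^ (r * (u + η)) := by
    intro t ht
    have hx : 1 ≤ H t := hE.1 t ht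
    have hx0 : 0 < H t := by linarith
    have hL : 0 ≤ w * Real.log (H t) / Real.log b :=
      div_nonneg (mul_nonneg hw (Real.log_nonneg hx)) hlogb.le
    have hxu : 1 ≤ H t ^ u := Real.one_le_rpow hx hu
    have hxη : 1 ≤ H t ^ η := Real.one_le_rpow hx hη0.le
    rw [Finset.card_product, Fintype.card_piFinset, Fintype.card_piFinset, Finset.prod_const,
      Finset.prod_const, Finset.card_univ, Fintype.card_fin, Finset.card_range, Finset.card_range]
    push_cast
    have h1 : (⌊1 + w * Real.log (H t) / Real.log b⌋₊ : ℝ) + 1 ≤ M * H t ^ η := by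
      have h2 := Nat.floor_le (show 0 ≤ 1 + w * Real.log (H t) / Real.log b by linarith)
      have h3 := Real.log_le_rpow_div hx0.le hη0
      have h4 : w * Real.log (H t) / Real.log b ≤ w / (η * Real.log b) * H t ^ η := by
        rw [div_le_iff₀ hlogb]
        calc w * Real.log (H t) ≤ w * (H t ^ η / η) := mul_le_mul_of_nonneg_left h3 hw
          _ = w / (η * Real.log b) * H t ^ η * Real.log b := by
            field_simp
      rw [hM]
      nlinarith
    have h5 : (⌊H t ^ u⌋₊ : ℝ) + 1 ≤ 2 * H t ^ u := by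
      have := Nat.floor_le (show 0 ≤ H t ^ u by linarith)
      linarith
    rw [← mul_pow]
    calc (((⌊1 + w * Real.log (H t) / Real.log b⌋₊ : ℝ) + 1) * ((⌊H t ^ u⌋₊ : ℝ) + 1)) ^ r
        ≤ ((M * H t ^ η) * (2 * H t ^ u)) ^ r := by
          refine pow_le_pow_left₀ (by positivity) ?_ r
          exact mul_le_mul h1 h5 (by positivity) (by positivity)
      _ = (M * 2) ^ r * (H t ^ u * H t ^ η) ^ r := by rw [← mul_pow]; ring
      _ = ((M * 2) ^ r) * H t ^ (r * (u + η)) := by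
          rw [← Real.rpow_add hx0, ← Real.rpow_natCast (H t ^ (u + η)) r, ← Real.rpow_mul hx0.le,
            mul_comm (u + η) (r : ℝ)]
  have hκ : κ < r * v - r * (u + η) := by
    have h2 : κ / r < v - (u + η) := by rw [hη]; linarith
    rw [div_lt_iff₀ hr0] at h2
    nlinarith
  have h1 := hE.torus h0 (ι := (Fin r → ℕ) × (Fin r → ℕ)) (fun p k => (b : ℤ) ^ p.2 k)
    (fun p k => pow_ne_zero _ (by exact_mod_cast (by omega : b ≠ 0)))
    (fun p t k => N k t / (b : ℝ) ^ p.1 k)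
    (fun t => Fintype.piFinset (fun _ : Fin r =>
      Finset.range (⌊1 + w * Real.log (H t) / Real.log b⌋₊ + 1)) ×ˢ
      Fintype.piFinset (fun _ : Fin r => Finset.range (⌊H t ^ u⌋₊ + 1))) (v := v) hcard hκ
  filter_upwards [h1] with α hα
  refine hα.subset ?_
  rintro t ⟨ht, hall⟩
  choose i m j hi hm hj using hall
  have hx : 1 ≤ H t := hE.1 t ht
  have hx0 : 0 < H t := by linarith
  refine ⟨ht, (i, m), ?_, fun k => ⟨j k, ?_⟩⟩
  · rw [Finset.mem_product, Fintype.mem_piFinset, Fintype.mem_piFinset]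
    constructor
    · intro k
      rw [Finset.mem_range]
      refine Nat.lt_succ_of_le (Nat.le_floor ?_)
      have h2 := Real.log_le_log (by positivity) (hi k)
      rw [Real.log_pow, Real.log_mul (by positivity) (Real.rpow_pos_of_pos hx0 _).ne',
        Real.log_rpow hx0] at h2
      simp only
      have h3 : (i k : ℝ) ≤ (Real.log b + w * Real.log (H t)) / Real.log b := by
        rw [le_div_iff₀ hlogb]
        exact h2
      rwa [add_div, div_self hlogb.ne'] at h3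
    · intro k
      rw [Finset.mem_range]
      exact Nat.lt_succ_of_le (Nat.le_floor (hm k))
  · simp only
    push_cast
    exact hj k

/-- **several common strings of digits with several numbers**, in all bases -/
theorem Sparse.several (hE : Sparse H E κ) (h0 : 0 ≤ κ) {r : ℕ} (hr : 1 ≤ r) (N : Fin r → T → ℝ)
    {w : ℝ} (hw : 0 ≤ w) :
    ∀ᵐ α : Fin r → ℝ, ∀ b : ℕ, 2 ≤ b → ∀ u v : ℝ, 0 ≤ u → u + κ / r < v →
      {t | t ∈ E ∧ ∀ k, CommonString b (α k) (H t ^ w) (H t ^ u) (H t ^ (-v)) (N k t)}.Finite := by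
  have key : ∀ᵐ α : Fin r → ℝ, ∀ (b : ℕ) (q p : ℚ), 2 ≤ b → (0 : ℝ) ≤ q → (q : ℝ) + κ / r < p →
      {t | t ∈ E ∧ ∀ k,
        CommonString b (α k) (H t ^ w) (H t ^ (q : ℝ)) (H t ^ (-(p : ℝ))) (N k t)}.Finite := by
    rw [ae_all_iff]
    intro b
    rw [ae_all_iff]
    intro q
    rw [ae_all_iff]
    intro p
    by_cases h : 2 ≤ b ∧ (0 : ℝ) ≤ q ∧ (q : ℝ) + κ / r < p
    · filter_upwards [hE.several_base h0 hr N hw b h.1 h.2.1 h.2.2] with α hα _ _ _
      exact hα
    · filter_upwards with α h1 h2 h3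
      exact absurd ⟨h1, h2, h3⟩ h
  filter_upwards [key] with α hα b hb u v hu hv
  obtain ⟨q, hq1, hq2⟩ := exists_rat_btwn (show u < v - κ / r by linarith)
  obtain ⟨p, hp1, hp2⟩ := exists_rat_btwn (show (q : ℝ) + κ / r < v by linarith)
  refine (hα b q p hb (hu.trans hq1.le) hp1).subset ?_
  rintro t ⟨ht, hall⟩
  have hx : 1 ≤ H t := hE.1 t ht
  refine ⟨ht, fun k => ?_⟩
  obtain ⟨i, m, j, hi, hm, hj⟩ := hall k
  exact ⟨i, m, j, hi, hm.trans (Real.rpow_le_rpow_of_exponent_le hx hq1.le),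
    hj.trans (Real.rpow_le_rpow_of_exponent_le hx (by linarith))⟩

end Pool.Agent.R942.HX
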